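import Mathlib
import Pool.Agent.Q167.VC.Stm

open Finset Filter Topology MeasureTheory

namespace Pool.Agent.Q185.VC

open Pool.Agent.Q167.VC

/-- `1 - t w` stays in the slit plane. -/
theorem slit {w : ℂ} (hw : 1 - w ∈ Complex.slitPlane) {t : ℝ} (h0 : 0 ≤ t) (h1 : t ≤ 1) :
    1 - (t : ℂ) * w ∈ Complex.slitPlane := by
  have h := Complex.starConvex_one_slitPlane.add_smul_mem (y := -w) (by
    simpa [sub_eq_add_neg] using hw) h0 h1
  simpa [sub_eq_add_neg] using h

/-- A compact neighbourhood of the segment. -/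
theorem nbhd {w : ℂ} (hw : 1 - w ∈ Complex.slitPlane) :
    ∃ δ > 0, ∃ M : ℝ, ∀ v ∈ Metric.ball w δ, ∀ t : ℝ, 0 ≤ t → t ≤ 1 →
      1 - (t : ℂ) * v ∈ Complex.slitPlane ∧ ‖(1 - (t : ℂ) * v)⁻¹‖ ≤ M := by
  have hK : IsCompact ((fun t : ℝ => 1 - (t : ℂ) * w) '' Set.Icc 0 1) :=
    isCompact_Icc.image (by fun_prop)
  have hsub : ((fun t : ℝ => 1 - (t : ℂ) * w) '' Set.Icc 0 1) ⊆ Complex.slitPlane := by
    rintro _ ⟨t, ht, rfl⟩
    exact slit hw ht.1 ht.2
  obtain ⟨δ, hδ, hth⟩ := hK.exists_cthickening_subset_open Complex.isOpen_slitPlane hsub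
  have hK2 : IsCompact (Metric.cthickening δ ((fun t : ℝ => 1 - (t : ℂ) * w) '' Set.Icc 0 1)) :=
    hK.cthickening
  have hcont : ContinuousOn (fun z : ℂ => z⁻¹)
      (Metric.cthickening δ ((fun t : ℝ => 1 - (t : ℂ) * w) '' Set.Icc 0 1)) := by
    apply ContinuousOn.inv₀ continuousOn_id
    intro z hz
    exact Complex.slitPlane_ne_zero (hth hz)
  obtain ⟨M, hM⟩ := hK2.exists_bound_of_continuousOn hcont
  refine ⟨δ, hδ, M, fun v hv t ht0 ht1 => ?_⟩
  have hmem : 1 - (t : ℂ) * v ∈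
      Metric.cthickening δ ((fun t : ℝ => 1 - (t : ℂ) * w) '' Set.Icc 0 1) := by
    refine Metric.mem_cthickening_of_dist_le (1 - (t : ℂ) * v) (1 - (t : ℂ) * w) δ _
      (Set.mem_image_of_mem (fun t : ℝ => 1 - (t : ℂ) * w) (show t ∈ Set.Icc 0 1 from ⟨ht0, ht1⟩)) ?_
    rw [dist_eq_norm]
    have : (1 - (t : ℂ) * v) - (1 - (t : ℂ) * w) = (t : ℂ) * (w - v) := by ring
    rw [this, norm_mul, Complex.norm_real, Real.norm_eq_abs, abs_of_nonneg ht0]
    have h2 : ‖w - v‖ ≤ δ := by
      rw [← dist_eq_norm, dist_comm]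
      exact (Metric.mem_ball.1 hv).le
    calc t * ‖w - v‖ ≤ 1 * ‖w - v‖ := by gcongr
      _ ≤ δ := by simpa using h2
  exact ⟨hth hmem, hM _ hmem⟩

/-- derivative of `t ↦ log (1 - t w)`. -/
theorem dlog {w : ℂ} (hw : 1 - w ∈ Complex.slitPlane) {t : ℝ} (h0 : 0 ≤ t) (h1 : t ≤ 1) :
    HasDerivAt (fun s : ℝ => Complex.log (1 - (s : ℂ) * w)) (-w / (1 - (t : ℂ) * w)) t := by
  have h : HasDerivAt (fun s : ℝ => 1 - (s : ℂ) * w) (-w) t := by
    have h2 : HasDerivAt (fun s : ℝ => (s : ℂ)) 1 t := Complex.ofRealCLM.hasDerivAt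
    have h3 := (h2.mul_const w).const_sub 1
    simpa using h3
  exact h.clog_real (slit hw h0 h1)

/-- the integrand is bounded. -/
theorem logbound {w : ℂ} (hw : 1 - w ∈ Complex.slitPlane) :
    ∃ C : ℝ, ∀ t ∈ Set.Icc (0 : ℝ) 1, ‖Complex.log (1 - (t : ℂ) * w)‖ ≤ C * t := by
  obtain ⟨δ, hδ, M, hM⟩ := nbhd hw
  refine ⟨‖w‖ * M, fun t ht => ?_⟩
  have hmv := (convex_Icc (0 : ℝ) t).norm_image_sub_le_of_norm_hasDerivWithin_le
    (f := fun s : ℝ => Complex.log (1 - (s : ℂ) * w))
    (f' := fun s : ℝ => -w / (1 - (s : ℂ) * w)) (C := ‖w‖ * M) (x := 0) (y := t)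
    (fun s hs => (dlog hw hs.1 (hs.2.trans ht.2)).hasDerivWithinAt)
    (fun s hs => by
      rw [div_eq_mul_inv, norm_mul, norm_neg]
      gcongr
      exact (hM w (Metric.mem_ball_self hδ) s hs.1 (hs.2.trans ht.2)).2)
    ⟨le_rfl, ht.1⟩ ⟨ht.1, le_rfl⟩
  simpa [abs_of_nonneg ht.1] using hmv

theorem contLog {w : ℂ} (hw : 1 - w ∈ Complex.slitPlane) :
    ContinuousOn (fun t : ℝ => Complex.log (1 - (t : ℂ) * w) / t) (Set.Ioc 0 1) := by
  intro t ht
  apply ContinuousAt.continuousWithinAt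
  apply ContinuousAt.div (dlog hw ht.1.le ht.2).continuousAt
    Complex.continuous_ofReal.continuousAt
  exact_mod_cast ht.1.ne'

theorem intLog {w : ℂ} (hw : 1 - w ∈ Complex.slitPlane) :
    IntervalIntegrable (fun t : ℝ => Complex.log (1 - (t : ℂ) * w) / t) volume 0 1 := by
  rw [intervalIntegrable_iff_integrableOn_Ioc_of_le zero_le_one]
  obtain ⟨C, hC⟩ := logbound hw
  refine Integrable.of_bound ((contLog hw).aestronglyMeasurable measurableSet_Ioc) C ?_
  rw [ae_restrict_iff' measurableSet_Ioc]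
  filter_upwards with t ht
  rw [norm_div, Complex.norm_real, Real.norm_eq_abs, abs_of_pos ht.1, div_le_iff₀ ht.1]
  exact hC t ⟨ht.1.le, ht.2⟩

theorem dLi2 {w : ℂ} (hw : 1 - w ∈ Complex.slitPlane) (hw0 : w ≠ 0) :
    HasDerivAt Li2 (-Complex.log (1 - w) / w) w := by
  obtain ⟨δ, hδ, M, hM⟩ := nbhd hw
  have hopen : ∀ᶠ v in 𝓝 w, 1 - v ∈ Complex.slitPlane := by
    have : ContinuousAt (fun v : ℂ => 1 - v) w := by fun_prop
    exact this.eventually_mem (Complex.isOpen_slitPlane.mem_nhds hw)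
  have key := intervalIntegral.hasDerivAt_integral_of_dominated_loc_of_deriv_le
    (μ := volume) (a := 0) (b := 1) (x₀ := w)
    (F := fun (v : ℂ) (t : ℝ) => Complex.log (1 - (t : ℂ) * v) / t)
    (F' := fun (v : ℂ) (t : ℝ) => -(1 - (t : ℂ) * v)⁻¹)
    (s := Metric.ball w δ) (bound := fun _ => M) (Metric.ball_mem_nhds w hδ)
    (by
      filter_upwards [hopen] with v hv
      rw [Set.uIoc_of_le zero_le_one]
      exact (contLog hv).aestronglyMeasurable measurableSet_Ioc)
    (intLog hw)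
    (by
      rw [Set.uIoc_of_le zero_le_one]
      apply ContinuousOn.aestronglyMeasurable _ measurableSet_Ioc
      intro t ht
      apply ContinuousAt.continuousWithinAt
      apply ContinuousAt.neg
      apply ContinuousAt.inv₀ (by fun_prop)
      exact Complex.slitPlane_ne_zero (slit hw ht.1.le ht.2))
    (by
      filter_upwards with t ht v hv
      rw [Set.uIoc_of_le zero_le_one] at ht
      rw [norm_neg]
      exact (hM v hv t ht.1.le ht.2).2)
    (by simp)
    (by
      filter_upwards with t ht v hv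
      rw [Set.uIoc_of_le zero_le_one] at ht
      have h1 : HasDerivAt (fun x : ℂ => 1 - (t : ℂ) * x) (-(t : ℂ)) v := by
        have := ((hasDerivAt_id v).const_mul (t : ℂ)).const_sub 1
        simpa using this
      have h2 := (h1.clog (hM v hv t ht.1.le ht.2).1).div_const (t : ℂ)
      have ht0 : (t : ℂ) ≠ 0 := by exact_mod_cast ht.1.ne'
      have hne := Complex.slitPlane_ne_zero (hM v hv t ht.1.le ht.2).1
      have he : -(1 - (t : ℂ) * v)⁻¹ = -(t : ℂ) / (1 - (t : ℂ) * v) / (t : ℂ) := by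
        field_simp
      rw [he]
      exact h2)
  have h2 := key.2.neg
  have hval : (∫ t in (0 : ℝ)..1, -(1 - (t : ℂ) * w)⁻¹) = Complex.log (1 - w) / w := by
    have h3 := intervalIntegral.integral_eq_sub_of_hasDerivAt (a := 0) (b := 1)
      (f := fun t : ℝ => Complex.log (1 - (t : ℂ) * w) / w)
      (f' := fun t : ℝ => -(1 - (t : ℂ) * w)⁻¹)
      (fun t ht => by
        rw [Set.uIcc_of_le zero_le_one] at ht
        have h4 := (dlog hw ht.1 ht.2).div_const w
        have hne := Complex.slitPlane_ne_zero (slit hw ht.1 ht.2)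
        have he : -(1 - (t : ℂ) * w)⁻¹ = -w / (1 - (t : ℂ) * w) / w := by
          field_simp
        rw [he]
        exact h4) key.1
    rw [h3]
    simp
  rw [hval] at h2
  have h3 : (fun v : ℂ => -∫ t in (0 : ℝ)..1, Complex.log (1 - (t : ℂ) * v) / t) = Li2 := rfl
  have h4 : -(Complex.log (1 - w) / w) = -Complex.log (1 - w) / w := by ring
  rw [← h4, ← h3]
  exact h2

theorem bwd : S_bwd := by
  intro g g' u hg h0 h1
  have hL := (dLi2 h1 h0).scomp u hg
  have hA : HasDerivAt (fun v => Complex.log (1 - g v)) (-g' / (1 - g u)) u :=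
    (hg.const_sub 1).clog_real h1
  have hN : HasDerivAt (fun v => Real.log ‖g v‖) (g' / g u).re u := by
    have hq : HasDerivAt (fun v => g v / g u) (g' / g u) u := hg.div_const (g u)
    have hs : g u / g u ∈ Complex.slitPlane := by
      rw [div_self h0]
      exact Complex.one_mem_slitPlane
    have hlog := hq.clog_real hs
    have hre := Complex.reCLM.hasFDerivAt.comp_hasDerivAt u hlog
    have hre2 : HasDerivAt (fun v => (Complex.log (g v / g u)).re) (g' / g u).re u := by
      have : g' / g u / (g u / g u) = g' / g u := by rw [div_self h0, div_one]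
      rw [this] at hre
      simpa [Function.comp_def] using hre
    have hsum := hre2.add_const (Real.log ‖g u‖)
    apply hsum.congr_of_eventuallyEq
    have hne : ∀ᶠ v in 𝓝 u, g v ≠ 0 := hg.continuousAt.eventually_ne h0
    filter_upwards [hne] with v hv
    rw [Complex.log_re, norm_div, Real.log_div (norm_ne_zero_iff.2 hv) (norm_ne_zero_iff.2 h0)]
    ring
  have hIm1 := Complex.imCLM.hasFDerivAt.comp_hasDerivAt u hL
  have hIm2 := Complex.imCLM.hasFDerivAt.comp_hasDerivAt u hA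
  have hIm1' : HasDerivAt (fun v => (Li2 (g v)).im)
      (g' • (-Complex.log (1 - g u) / g u)).im u := by
    simpa [Function.comp_def] using hIm1
  have hIm2' : HasDerivAt (fun v => Complex.arg (1 - g v)) (-g' / (1 - g u)).im u := by
    have h5 : (fun v => Complex.arg (1 - g v)) = fun v => (Complex.log (1 - g v)).im := by
      funext v
      rw [Complex.log_im]
    rw [h5]
    simpa [Function.comp_def] using hIm2
  have hfin := hIm1'.add (hIm2'.mul hN)
  have h6 : (fun v => BW (g v)) = (fun v => (Li2 (g v)).im)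
      + ((fun v => Complex.arg (1 - g v)) * fun v => Real.log ‖g v‖) := by
    funext v
    rfl
  rw [h6]
  have h7 : g' • (-Complex.log (1 - g u) / g u) = -(Complex.log (1 - g u) * (g' / g u)) := by
    rw [smul_eq_mul]
    ring
  have h8 : Real.log ‖g u‖ * (-g' / (1 - g u)).im - Real.log ‖1 - g u‖ * (g' / g u).im
      = (g' • (-Complex.log (1 - g u) / g u)).im
        + ((-g' / (1 - g u)).im * Real.log ‖g u‖ + (1 - g u).arg * (g' / g u).re) := by
    rw [h7, Complex.neg_im, Complex.mul_im, Complex.log_re, Complex.log_im]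
    ring
  rw [h8]
  exact hfin

end Pool.Agent.Q185.VC
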