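import Mathlib
import Pool.Agent.Q167.VC.Stm
import Pool.Agent.Q185.VC.Bwd

open Finset Filter Topology MeasureTheory

namespace Pool.Agent.Q185.VC

open Pool.Agent.Q167.VC

theorem Li2_conj {w : ℂ} (hw : 1 - w ∈ Complex.slitPlane) :
    Li2 (starRingEnd ℂ w) = starRingEnd ℂ (Li2 w) := by
  unfold Li2
  rw [map_neg, ← intervalIntegral.intervalIntegral_conj]
  congr 1
  apply intervalIntegral.integral_congr
  intro t ht
  rw [Set.uIcc_of_le zero_le_one] at ht
  have hs := slit hw ht.1 ht.2
  have harg : (1 - (t : ℂ) * w).arg ≠ Real.pi := (Complex.mem_slitPlane_iff_arg.1 hs).1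
  have hl := Complex.log_conj _ harg
  simp only [map_sub, map_one, map_mul, Complex.conj_ofReal, map_div₀] at hl ⊢
  rw [hl]

theorem BW_conj {w : ℂ} (hw : 1 - w ∈ Complex.slitPlane) :
    BW (starRingEnd ℂ w) = -BW w := by
  unfold BW
  rw [Li2_conj hw, Complex.conj_im, RCLike.norm_conj]
  have harg : (1 - w).arg ≠ Real.pi := (Complex.mem_slitPlane_iff_arg.1 hw).1
  have h1 : (1 - starRingEnd ℂ w) = starRingEnd ℂ (1 - w) := by simp
  rw [h1, Complex.arg_conj, if_neg harg]
  ring

/-- bound for the argument. -/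
theorem arg_bound {φ t : ℝ} (hφ : φ ∈ Set.Ioo (-(Real.pi / 2)) 0) (ht : t ∈ Set.Ioc (0 : ℝ) 1) :
    |(Complex.log (1 - (t : ℂ) * Complex.exp (φ * Complex.I)) / t).im|
      ≤ -Real.sin φ / (1 - t * Real.cos φ) := by
  have hc0 : 0 < Real.cos φ := Real.cos_pos_of_mem_Ioo ⟨hφ.1, hφ.2.trans (by positivity)⟩
  have hs0 : Real.sin φ < 0 := Real.sin_neg_of_neg_of_neg_pi_lt hφ.2 (by
    have := hφ.1
    have := Real.pi_pos
    linarith)
  have hc1 : Real.cos φ < 1 := by
    have h := Real.sin_sq_add_cos_sq φ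
    nlinarith
  have hre : (1 - (t : ℂ) * Complex.exp (φ * Complex.I)).re = 1 - t * Real.cos φ := by
    rw [Complex.exp_mul_I]
    simp [← Complex.ofReal_cos, ← Complex.ofReal_sin]
  have him : (1 - (t : ℂ) * Complex.exp (φ * Complex.I)).im = -(t * Real.sin φ) := by
    rw [Complex.exp_mul_I]
    simp [← Complex.ofReal_cos, ← Complex.ofReal_sin]
  have hpos : 0 < 1 - t * Real.cos φ := by
    have : t * Real.cos φ ≤ 1 * Real.cos φ := by
      have := ht.2
      gcongr
    linarith
  set z : ℂ := 1 - (t : ℂ) * Complex.exp (φ * Complex.I) with hz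
  have hargpos : 0 ≤ z.arg := Complex.arg_nonneg_iff.2 (by
    rw [him]
    have := ht.1
    nlinarith)
  have harglt : z.arg < Real.pi / 2 := by
    have := Complex.abs_arg_lt_pi_div_two_iff.2 (Or.inl (by rw [hre]; exact hpos) : 0 < z.re ∨ z = 0)
    exact (abs_lt.1 this).2
  have htan := Real.le_tan hargpos harglt
  rw [Complex.tan_arg, hre, him] at htan
  have hval : (Complex.log z / (t : ℂ)).im = z.arg / t := by
    rw [Complex.div_ofReal_im, Complex.log_im]
  rw [hval, abs_of_nonneg (div_nonneg hargpos ht.1.le), div_le_iff₀ ht.1]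
  calc z.arg ≤ -(t * Real.sin φ) / (1 - t * Real.cos φ) := htan
    _ = -Real.sin φ / (1 - t * Real.cos φ) * t := by ring

theorem BW_bound {φ : ℝ} (hφ : φ ∈ Set.Ioo (-(Real.pi / 2)) 0) :
    |BW (Complex.exp (φ * Complex.I))|
      ≤ -Real.sin φ * (-Real.log (1 - Real.cos φ)) / Real.cos φ := by
  have hc0 : 0 < Real.cos φ := Real.cos_pos_of_mem_Ioo ⟨hφ.1, hφ.2.trans (by positivity)⟩
  have hs0 : Real.sin φ < 0 := Real.sin_neg_of_neg_of_neg_pi_lt hφ.2 (by
    have := hφ.1
    have := Real.pi_pos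
    linarith)
  have hc1 : Real.cos φ < 1 := by
    have h := Real.sin_sq_add_cos_sq φ
    nlinarith
  have hw : 1 - Complex.exp (φ * Complex.I) ∈ Complex.slitPlane := by
    left
    rw [Complex.exp_mul_I]
    simp only [Complex.sub_re, Complex.one_re, Complex.add_re, Complex.mul_re, Complex.I_re,
      mul_zero, Complex.I_im, mul_one, ← Complex.ofReal_cos, ← Complex.ofReal_sin,
      Complex.ofReal_re, Complex.ofReal_im]
    linarith
  have h1 : BW (Complex.exp (φ * Complex.I))
      = -∫ t in (0 : ℝ)..1, (Complex.log (1 - (t : ℂ) * Complex.exp (φ * Complex.I)) / t).im := by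
    unfold BW Li2
    rw [Complex.norm_exp_ofReal_mul_I, Real.log_one, mul_zero, add_zero, Complex.neg_im]
    congr 1
    have := Complex.imCLM.intervalIntegral_comp_comm (intLog hw)
    simpa using this.symm
  rw [h1, abs_neg]
  have hint : IntervalIntegrable (fun t : ℝ => -Real.sin φ / (1 - t * Real.cos φ)) volume 0 1 := by
    apply ContinuousOn.intervalIntegrable
    intro t ht
    rw [Set.uIcc_of_le zero_le_one] at ht
    apply ContinuousAt.continuousWithinAt
    have : (1 - t * Real.cos φ) ≠ 0 := by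
      have h2 : t * Real.cos φ ≤ 1 * Real.cos φ := by
        have := ht.2
        gcongr
      linarith
    fun_prop (disch := assumption)
  have h2 := intervalIntegral.norm_integral_le_of_norm_le (μ := volume) (zero_le_one (α := ℝ))
    (f := fun t : ℝ => (Complex.log (1 - (t : ℂ) * Complex.exp (φ * Complex.I)) / t).im)
    (g := fun t : ℝ => -Real.sin φ / (1 - t * Real.cos φ))
    (Eventually.of_forall fun t ht => arg_bound hφ ht) hint
  rw [Real.norm_eq_abs] at h2
  refine h2.trans (le_of_eq ?_)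
  have h3 := intervalIntegral.integral_eq_sub_of_hasDerivAt (a := 0) (b := 1)
    (f := fun t : ℝ => Real.sin φ * Real.log (1 - t * Real.cos φ) / Real.cos φ)
    (f' := fun t : ℝ => -Real.sin φ / (1 - t * Real.cos φ))
    (fun t ht => by
      rw [Set.uIcc_of_le zero_le_one] at ht
      have hne : (1 - t * Real.cos φ) ≠ 0 := by
        have h2 : t * Real.cos φ ≤ 1 * Real.cos φ := by
          have := ht.2
          gcongr
        linarith
      have h4 : HasDerivAt (fun t : ℝ => 1 - t * Real.cos φ) (-Real.cos φ) t := by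
        have := ((hasDerivAt_id t).mul_const (Real.cos φ)).const_sub 1
        simpa using this
      have h5 := ((h4.log hne).const_mul (Real.sin φ)).div_const (Real.cos φ)
      have he : -Real.sin φ / (1 - t * Real.cos φ)
          = Real.sin φ * (-Real.cos φ / (1 - t * Real.cos φ)) / Real.cos φ := by
        field_simp
      rw [he]
      exact h5) hint
  rw [h3]
  simp

theorem bwl : S_bwl := by
  refine ⟨fun w hw => BW_conj hw, ?_⟩
  have hx : Tendsto (fun φ : ℝ => 1 - Real.cos φ) (𝓝[<] 0) (𝓝[>] 0) := by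
    apply tendsto_nhdsWithin_of_tendsto_nhds_of_eventually_within
    · have : Tendsto (fun φ : ℝ => 1 - Real.cos φ) (𝓝 0) (𝓝 (1 - Real.cos 0)) := by
        apply Continuous.tendsto
        fun_prop
      rw [Real.cos_zero, sub_self] at this
      exact this.mono_left nhdsWithin_le_nhds
    · have : Set.Ioo (-(Real.pi / 2)) 0 ∈ 𝓝[<] (0 : ℝ) :=
        Ioo_mem_nhdsLT (by have := Real.pi_pos; linarith)
      filter_upwards [this] with φ hφ
      have hs0 : Real.sin φ < 0 := Real.sin_neg_of_neg_of_neg_pi_lt hφ.2 (by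
        have := hφ.1
        have := Real.pi_pos
        linarith)
      have hc0 : 0 < Real.cos φ := Real.cos_pos_of_mem_Ioo ⟨hφ.1, hφ.2.trans (by positivity)⟩
      have h := Real.sin_sq_add_cos_sq φ
      have : Real.cos φ < 1 := by nlinarith
      simpa using this
  have hlog : Tendsto (fun φ : ℝ => Real.log (1 - Real.cos φ) * (1 - Real.cos φ) ^ (1 / 2 : ℝ))
      (𝓝[<] 0) (𝓝 0) := (tendsto_log_mul_rpow_nhdsGT_zero (by norm_num)).comp hx
  have hcos : Tendsto (fun φ : ℝ => Real.cos φ) (𝓝[<] 0) (𝓝 1) := by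
    have : Tendsto (fun φ : ℝ => Real.cos φ) (𝓝 0) (𝓝 (Real.cos 0)) := by
      apply Continuous.tendsto
      fun_prop
    rw [Real.cos_zero] at this
    exact this.mono_left nhdsWithin_le_nhds
  have hb : Tendsto (fun φ : ℝ => -Real.sqrt 2
      * (Real.log (1 - Real.cos φ) * (1 - Real.cos φ) ^ (1 / 2 : ℝ)) / Real.cos φ)
      (𝓝[<] 0) (𝓝 0) := by
    have h := (hlog.const_mul (-Real.sqrt 2)).div hcos one_ne_zero
    rw [mul_zero, zero_div] at h
    exact h
  apply squeeze_zero_norm' _ hb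
  have : Set.Ioo (-(Real.pi / 2)) 0 ∈ 𝓝[<] (0 : ℝ) :=
    Ioo_mem_nhdsLT (by have := Real.pi_pos; linarith)
  filter_upwards [this] with φ hφ
  have hc0 : 0 < Real.cos φ := Real.cos_pos_of_mem_Ioo ⟨hφ.1, hφ.2.trans (by positivity)⟩
  have hs0 : Real.sin φ < 0 := Real.sin_neg_of_neg_of_neg_pi_lt hφ.2 (by
    have := hφ.1
    have := Real.pi_pos
    linarith)
  have hsq := Real.sin_sq_add_cos_sq φ
  have hc1 : Real.cos φ < 1 := by nlinarith
  rw [Real.norm_eq_abs]
  refine (BW_bound hφ).trans ?_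
  have hl : Real.log (1 - Real.cos φ) ≤ 0 := Real.log_nonpos (by linarith) (by linarith)
  have hsle : -Real.sin φ ≤ Real.sqrt 2 * (1 - Real.cos φ) ^ (1 / 2 : ℝ) := by
    rw [← Real.sqrt_eq_rpow, ← Real.sqrt_mul (by norm_num)]
    apply Real.le_sqrt_of_sq_le
    nlinarith
  have h6 : -Real.sin φ * -Real.log (1 - Real.cos φ)
      ≤ (Real.sqrt 2 * (1 - Real.cos φ) ^ (1 / 2 : ℝ)) * -Real.log (1 - Real.cos φ) :=
    mul_le_mul_of_nonneg_right hsle (by linarith)
  calc -Real.sin φ * -Real.log (1 - Real.cos φ) / Real.cos φ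
      ≤ ((Real.sqrt 2 * (1 - Real.cos φ) ^ (1 / 2 : ℝ)) * -Real.log (1 - Real.cos φ))
        / Real.cos φ := by gcongr
    _ = _ := by ring

end Pool.Agent.Q185.VC
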